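import Mathlib

/-!
# Clause-wise reductions: the choice of the parameters
-/

set_option autoImplicit false

open Filter Topology

namespace Pool.Agent.Helper61.MW

theorem ev_pow (k E : ℕ) : ∀ᶠ l : ℕ in atTop, (k * (l + 1) + 1) ^ E ≤ 2 ^ l := by
  have h1 := tendsto_pow_const_div_const_pow_of_one_lt E (r := (2 : ℝ)) (by norm_num)
  have h2 : ∀ᶠ l : ℕ in atTop, (l : ℝ) ^ E / 2 ^ l < 1 / (2 * k + 1) ^ E :=
    h1.eventually (gt_mem_nhds (by positivity))
  filter_upwards [h2, eventually_ge_atTop 1] with l hl hl1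
  have h3 : (l : ℝ) ^ E * (2 * k + 1) ^ E < 2 ^ l := by
    rw [div_lt_div_iff₀ (by positivity) (by positivity)] at hl
    linarith
  have h4 : k * (l + 1) + 1 ≤ l * (2 * k + 1) := by nlinarith
  have h5 : (k * (l + 1) + 1) ^ E ≤ (l * (2 * k + 1)) ^ E := Nat.pow_le_pow_left h4 E
  refine h5.trans ?_
  have h6 : ((l * (2 * k + 1)) ^ E : ℝ) < 2 ^ l := by rw [mul_pow]; exact h3
  exact_mod_cast h6.le

theorem pow_max (a b E : ℕ) : (a + b) ^ E ≤ 2 ^ E * (a ^ E + b ^ E) := by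
  rcases le_total a b with h | h
  · calc (a + b) ^ E ≤ (2 * b) ^ E := Nat.pow_le_pow_left (by omega) E
      _ = 2 ^ E * b ^ E := mul_pow 2 b E
      _ ≤ _ := Nat.mul_le_mul_left _ (Nat.le_add_left _ _)
  · calc (a + b) ^ E ≤ (2 * a) ^ E := Nat.pow_le_pow_left (by omega) E
      _ = 2 ^ E * a ^ E := mul_pow 2 a E
      _ ≤ _ := Nat.mul_le_mul_left _ (Nat.le_add_right _ _)

/-- The parameters. -/
theorem asym (c d e F G : ℕ) (he : 1 ≤ e) : ∃ n N : ℕ, ∀ q V : ℕ,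
    q ^ e ≤ F * (n + 1) ^ c * (N + 1) ^ (e - 1) →
    V ^ (2 * (c + 1) * (d + 1) * e) ≤ G * (n + N + 1) →
    2 ^ (2 * (c + 1) + 4) * ((q + 1) *
      (V + 2 * (c + 1) * (Nat.log 2 n + 1) + 1)) ≤ N ∧
    2 ^ (2 * (c + 1) + 4) * q * (2 * (c + 1) * (4 * ((2 * V + 1) ^ d + 2 * (c + 1) + 2))) ^
      (2 * (c + 1)) < n.choose (2 * (c + 1)) := by
  obtain ⟨k, hk⟩ : ∃ k, k = 2 * (c + 1) := ⟨_, rfl⟩
  obtain ⟨E, hE⟩ : ∃ E, E = 2 * (d + 1) * e := ⟨_, rfl⟩
  rw [← hk]
  set K1 := F * 2 ^ (c + (e - 1)) with hK1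
  set K2 := 2 ^ e * (K1 + 1) with hK2
  set K3 := 3 * G + 1 with hK3
  set K4 := 2 ^ E * (K3 + 1) with hK4
  set K5 := (2 ^ (k + 4)) ^ E * K2 ^ (2 * (d + 1)) * K4 with hK5
  set K7 := (4 * k * (k + 3) * 3 ^ d) ^ (2 * e) * (K3 + 1) with hK7
  set K9 := (2 ^ k * k.factorial * 2 ^ (k + 4)) ^ (2 * e) * (K1 ^ 2 * K7 ^ k) with hK9
  have hE1 : 1 ≤ E := by rw [hE]; exact Nat.one_le_iff_ne_zero.2 (by positivity)
  have hk1 : 1 ≤ k := by omega
  -- choice of `l`
  have hev : ∀ᶠ l : ℕ in atTop, (k * (l + 1) + 1) ^ E ≤ 2 ^ l ∧ (K5 + K9 + 2 * k + 2) ≤ 2 ^ l := by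
    refine (ev_pow k E).and ?_
    filter_upwards [eventually_ge_atTop (K5 + K9 + 2 * k + 2)] with l hl
    exact hl.trans l.lt_two_pow_self.le
  obtain ⟨l, hl1, hl2⟩ := hev.exists
  obtain ⟨x, hx⟩ : ∃ x, x = 2 ^ l := ⟨_, rfl⟩
  rw [← hx] at hl1 hl2
  have hx1 : 1 ≤ x := by omega
  refine ⟨x, x ^ (c + 1), fun q V hq hV => ?_⟩
  have hlog : Nat.log 2 x = l := by rw [hx]; exact Nat.log_pow (by norm_num) l
  rw [hlog]
  have hxc : x ≤ x ^ (c + 1) := Nat.le_self_pow (by omega) x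
  -- the bound of `q`
  have hq1 : q ^ e * x ≤ K1 * x ^ ((c + 1) * e) := by
    have h1 : F * (x + 1) ^ c * (x ^ (c + 1) + 1) ^ (e - 1) ≤
        F * (2 * x) ^ c * (2 * x ^ (c + 1)) ^ (e - 1) :=
      Nat.mul_le_mul (Nat.mul_le_mul_left _ (Nat.pow_le_pow_left (by omega) c))
        (Nat.pow_le_pow_left (by omega) (e - 1))
    calc q ^ e * x ≤ F * (2 * x) ^ c * (2 * x ^ (c + 1)) ^ (e - 1) * x :=
          Nat.mul_le_mul_right _ (hq.trans h1)
      _ = K1 * x ^ (c + (c + 1) * (e - 1) + 1) := by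
          rw [hK1, mul_pow, mul_pow, ← pow_mul, pow_add, pow_add, pow_add]; ring
      _ = K1 * x ^ ((c + 1) * e) := by
          congr 2
          obtain ⟨e', rfl⟩ : ∃ e', e = e' + 1 := ⟨e - 1, by omega⟩
          simp only [Nat.add_sub_cancel]
          ring
  have hq2 : (q + 1) ^ e * x ≤ K2 * x ^ ((c + 1) * e) := by
    have h1 : (q + 1) ^ e ≤ 2 ^ e * (q ^ e + 1) := by
      have := pow_max q 1 e
      rwa [one_pow] at this
    have h2 : x ≤ x ^ ((c + 1) * e) := Nat.le_self_pow (by positivity) x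
    calc (q + 1) ^ e * x ≤ 2 ^ e * (q ^ e + 1) * x := Nat.mul_le_mul_right _ h1
      _ = 2 ^ e * (q ^ e * x + x) := by ring
      _ ≤ 2 ^ e * (K1 * x ^ ((c + 1) * e) + x ^ ((c + 1) * e)) :=
          Nat.mul_le_mul_left _ (Nat.add_le_add hq1 h2)
      _ = K2 * x ^ ((c + 1) * e) := by rw [hK2]; ring
  -- the bound of `V`
  have hV1 : V ^ E ≤ K3 * x := by
    have h1 : (V ^ E) ^ (c + 1) ≤ (K3 * x) ^ (c + 1) := by
      calc (V ^ E) ^ (c + 1) = V ^ (k * (d + 1) * e) := by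
            rw [← pow_mul, hE, hk]; congr 1; ring
        _ ≤ G * (x + x ^ (c + 1) + 1) := hV
        _ ≤ G * (3 * x ^ (c + 1)) := Nat.mul_le_mul_left _ (by omega)
        _ = (3 * G) * x ^ (c + 1) := by ring
        _ ≤ K3 ^ (c + 1) * x ^ (c + 1) := by
            refine Nat.mul_le_mul_right _ ?_
            calc 3 * G ≤ K3 := by omega
              _ ≤ K3 ^ (c + 1) := Nat.le_self_pow (by omega) _
        _ = (K3 * x) ^ (c + 1) := (mul_pow _ _ _).symm
    exact (Nat.pow_le_pow_iff_left (by omega)).1 h1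
  constructor
  · set B := V + k * (l + 1) + 1 with hB
    have hB1 : B ^ E ≤ K4 * x := by
      calc B ^ E = (V + (k * (l + 1) + 1)) ^ E := by rw [hB]; ring_nf
        _ ≤ 2 ^ E * (V ^ E + (k * (l + 1) + 1) ^ E) := pow_max _ _ _
        _ ≤ 2 ^ E * (K3 * x + x) := Nat.mul_le_mul_left _ (Nat.add_le_add hV1 hl1)
        _ = K4 * x := by rw [hK4]; ring
    have h1 : (2 ^ (k + 4) * ((q + 1) * B)) ^ E * x ^ (2 * (d + 1)) ≤
        (x ^ (c + 1)) ^ E * x ^ (2 * (d + 1)) := by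
      calc (2 ^ (k + 4) * ((q + 1) * B)) ^ E * x ^ (2 * (d + 1))
          = (2 ^ (k + 4)) ^ E * (((q + 1) ^ e * x) ^ (2 * (d + 1)) * B ^ E) := by
            rw [mul_pow, mul_pow, mul_pow ((q + 1) ^ e) x, ← pow_mul (q + 1) e,
              show e * (2 * (d + 1)) = E by rw [hE]; ring]
            ring
        _ ≤ (2 ^ (k + 4)) ^ E * ((K2 * x ^ ((c + 1) * e)) ^ (2 * (d + 1)) * (K4 * x)) :=
            Nat.mul_le_mul_left _ (Nat.mul_le_mul (Nat.pow_le_pow_left hq2 _) hB1)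
        _ = K5 * (x * (x ^ (c + 1)) ^ E) := by
            rw [mul_pow K2, ← pow_mul x, ← pow_mul x (c + 1) E,
              show (c + 1) * e * (2 * (d + 1)) = (c + 1) * E by rw [hE]; ring, hK5]
            ring
        _ ≤ x * (x * (x ^ (c + 1)) ^ E) := Nat.mul_le_mul_right _ (by omega)
        _ = (x ^ (c + 1)) ^ E * x ^ 2 := by ring
        _ ≤ (x ^ (c + 1)) ^ E * x ^ (2 * (d + 1)) :=
            Nat.mul_le_mul_left _ (Nat.pow_le_pow_right hx1 (by omega))
    have h2 := Nat.le_of_mul_le_mul_right h1 (by positivity)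
    exact (Nat.pow_le_pow_iff_left (by omega)).1 h2
  · by_contra hcon
    push Not at hcon
    set P := k * (4 * ((2 * V + 1) ^ d + k + 2)) with hP
    have hP1 : P ^ (2 * e) ≤ K7 * x := by
      have h1 : P ≤ 4 * k * (k + 3) * 3 ^ d * (max V 1) ^ d := by
        have h2 : (2 * V + 1) ^ d ≤ (3 * max V 1) ^ d := Nat.pow_le_pow_left (by omega) d
        have h3 : 1 ≤ (3 * max V 1) ^ d := Nat.one_le_pow _ _ (by omega)
        have h4 : (2 * V + 1) ^ d + k + 2 ≤ (k + 3) * (3 * max V 1) ^ d := by nlinarith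
        calc P ≤ k * (4 * ((k + 3) * (3 * max V 1) ^ d)) :=
              Nat.mul_le_mul_left _ (Nat.mul_le_mul_left _ h4)
          _ = 4 * k * (k + 3) * 3 ^ d * (max V 1) ^ d := by rw [mul_pow]; ring
      have h5 : (max V 1) ^ (d * (2 * e)) ≤ (K3 + 1) * x := by
        have h6 : (max V 1) ^ (d * (2 * e)) ≤ (max V 1) ^ E := by
          refine Nat.pow_le_pow_right (by omega) ?_
          rw [hE]
          nlinarith
        refine h6.trans ?_
        rcases le_total V 1 with h7 | h7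
        · rw [max_eq_right h7, one_pow]
          nlinarith
        · rw [max_eq_left h7]
          nlinarith
      calc P ^ (2 * e) ≤ (4 * k * (k + 3) * 3 ^ d * (max V 1) ^ d) ^ (2 * e) :=
            Nat.pow_le_pow_left h1 _
        _ = (4 * k * (k + 3) * 3 ^ d) ^ (2 * e) * (max V 1) ^ (d * (2 * e)) := by
            rw [mul_pow, ← pow_mul (max V 1)]
        _ ≤ (4 * k * (k + 3) * 3 ^ d) ^ (2 * e) * ((K3 + 1) * x) := Nat.mul_le_mul_left _ h5
        _ = K7 * x := by rw [hK7]; ring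
    have h1 : x ^ k ≤ 2 ^ k * k.factorial * x.choose k := by
      have h2 : (x + 1 - k) ^ k ≤ k.factorial * x.choose k := by
        rw [← Nat.descFactorial_eq_factorial_mul_choose]
        exact Nat.pow_sub_le_descFactorial x k
      calc x ^ k ≤ (2 * (x + 1 - k)) ^ k := Nat.pow_le_pow_left (by omega) k
        _ = 2 ^ k * (x + 1 - k) ^ k := mul_pow _ _ _
        _ ≤ 2 ^ k * (k.factorial * x.choose k) := Nat.mul_le_mul_left _ h2
        _ = _ := by ring
    have h2 : x ^ k ≤ (2 ^ k * k.factorial * 2 ^ (k + 4)) * (q * P ^ k) := by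
      calc x ^ k ≤ 2 ^ k * k.factorial * x.choose k := h1
        _ ≤ 2 ^ k * k.factorial * (2 ^ (k + 4) * q * P ^ k) := Nat.mul_le_mul_left _ hcon
        _ = _ := by ring
    have h3 : (x ^ k) ^ (2 * e) * x ^ 2 ≤ K9 * (x ^ k) ^ (2 * e) := by
      calc (x ^ k) ^ (2 * e) * x ^ 2
          ≤ ((2 ^ k * k.factorial * 2 ^ (k + 4)) * (q * P ^ k)) ^ (2 * e) * x ^ 2 :=
            Nat.mul_le_mul_right _ (Nat.pow_le_pow_left h2 _)
        _ = (2 ^ k * k.factorial * 2 ^ (k + 4)) ^ (2 * e) * ((q ^ e * x) ^ 2 *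
              (P ^ (2 * e)) ^ k) := by
            rw [mul_pow (2 ^ k * k.factorial * 2 ^ (k + 4)), mul_pow q, ← pow_mul P k,
              mul_pow (q ^ e) x, ← pow_mul q e 2, ← pow_mul P (2 * e) k,
              show k * (2 * e) = 2 * e * k by ring, show e * 2 = 2 * e by ring]
            ring
        _ ≤ (2 ^ k * k.factorial * 2 ^ (k + 4)) ^ (2 * e) *
              ((K1 * x ^ ((c + 1) * e)) ^ 2 * (K7 * x) ^ k) :=
            Nat.mul_le_mul_left _ (Nat.mul_le_mul (Nat.pow_le_pow_left hq1 _)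
              (Nat.pow_le_pow_left hP1 _))
        _ = K9 * (x ^ (k * e) * x ^ k) := by
            rw [mul_pow K1, mul_pow K7, ← pow_mul x,
              show (c + 1) * e * 2 = k * e by rw [hk]; ring, hK9]
            ring
        _ ≤ K9 * (x ^ k) ^ (2 * e) := by
            refine Nat.mul_le_mul_left _ ?_
            have h6 : x ^ (k * e) * x ^ k = x ^ (k * e + k) := (pow_add x _ _).symm
            have h7 : (x ^ k) ^ (2 * e) = x ^ (k * (2 * e)) := (pow_mul x _ _).symm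
            rw [h6, h7]
            refine Nat.pow_le_pow_right hx1 ?_
            nlinarith
    have h4 : x ^ 2 ≤ K9 := by
      have h5 : (x ^ k) ^ (2 * e) * x ^ 2 ≤ (x ^ k) ^ (2 * e) * K9 := by
        rw [mul_comm _ K9]; exact h3
      exact Nat.le_of_mul_le_mul_left h5 (by positivity)
    have h5 : x ≤ x ^ 2 := Nat.le_self_pow (by norm_num) x
    omega

end Pool.Agent.Helper61.MW
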