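import Pool.Agent.Helper61.MW.Pop

/-!
# Clause-wise reductions: the quantitative theorem
-/

set_option autoImplicit false

open scoped Classical
open Finset

namespace Pool.Agent.Helper61.MW

/-- the sets met by `x` -/
noncomputable def Hit {n : ℕ} (x : Finset (Fin n)) : Finset (Finset (Fin n)) :=
  univ.filter fun S => ¬ Disjoint x S

theorem card_hit {n : ℕ} (x : Finset (Fin n)) : (Hit x).card ≤ 2 ^ n := by
  have h1 := card_le_univ (Hit x)
  rwa [Fintype.card_finset, Fintype.card_fin] at h1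

/-- many sets meet `x` and not `x'` -/
theorem card_sep {n k : ℕ} (x x' : Finset (Fin n)) (hx' : x'.card = k) (v : Fin n)
    (hv : v ∈ x) (hv' : v ∉ x') :
    2 ^ n ≤ ((Hit x).filter fun S => Disjoint x' S).card * 2 ^ (k + 1) := by
  have h1 := card_disj (insert v x')
  rw [card_insert_of_notMem hv', hx'] at h1
  rw [← h1]
  refine Nat.mul_le_mul_right _ ?_
  refine card_le_card_of_injOn (fun S => insert v S) ?_ ?_
  · intro S hS
    have h2 : Disjoint (insert v x') S := (mem_filter.1 (mem_coe.1 hS)).2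
    rw [disjoint_insert_left] at h2
    refine mem_coe.2 (mem_filter.2 ⟨mem_filter.2 ⟨mem_univ _, ?_⟩, ?_⟩)
    · exact fun h => disjoint_left.1 h hv (mem_insert_self v S)
    · exact disjoint_insert_right.2 ⟨hv', h2.2⟩
  · intro S hS S' hS' h
    have h2 : Disjoint (insert v x') S := (mem_filter.1 (mem_coe.1 hS)).2
    have h3 : Disjoint (insert v x') S' := (mem_filter.1 (mem_coe.1 hS')).2
    rw [disjoint_insert_left] at h2 h3
    have h4 : insert v S = insert v S' := h
    rw [← erase_insert h2.1, h4, erase_insert h3.1]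

/-- the accepted sets are met by `x` -/
theorem acc_hit {n N k L : ℕ} (x : Finset (Fin n)) (hx : x.card = k)
    (A : Fin N → Finset (Finset (Fin n)))
    (hpos : ∀ i, 0 < (Hit x ∩ A i).card)
    (herr : ∑ i, (((Hit x) \ A i).card : ℝ) ≤ L * 2 ^ n)
    (hN : 2 ^ (k + 2) * (L + k * (Nat.log 2 n + 1)) + 2 ≤ N)
    (hsat : ∀ H : Fin N → Finset (Fin n), (∀ i, H i ∈ A i) →
      ∃ x' : Finset (Fin n), x'.card = k ∧ ∀ i, H i ∈ Hit x')
    (j : Fin N) (S₀ : Finset (Fin n)) (hS₀ : S₀ ∈ A j) : S₀ ∈ Hit x := by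
  by_contra hmiss
  have hmiss' : Disjoint x S₀ := by
    by_contra h
    exact hmiss (mem_filter.2 ⟨mem_univ _, h⟩)
  let Xs : Fin N → Finset (Finset (Fin n)) := fun i => if i = j then {S₀} else Hit x ∩ A i
  let Ys : Finset (Fin n) → Fin N → Finset (Finset (Fin n)) :=
    fun x' i => if i = j then {S₀} else (Hit x ∩ A i) ∩ Hit x'
  let 𝒳 : Finset (Finset (Fin n)) := ((univ : Finset (Fin n)).powersetCard k).erase x
  have hcov : Fintype.piFinset Xs ⊆ 𝒳.biUnion fun x' => Fintype.piFinset (Ys x') := by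
    intro H hH
    rw [Fintype.mem_piFinset] at hH
    have h1 : ∀ i, H i ∈ A i := by
      intro i
      have h2 := hH i
      by_cases hij : i = j
      · simp only [Xs, if_pos hij, mem_singleton] at h2
        rw [h2, hij]; exact hS₀
      · simp only [Xs, if_neg hij] at h2
        exact (mem_inter.1 h2).2
    obtain ⟨x', hx'k, hx'⟩ := hsat H h1
    have hne : x' ≠ x := by
      rintro rfl
      have h2 := hH j
      simp only [Xs, if_true, mem_singleton] at h2
      have h3 := hx' j
      rw [h2] at h3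
      exact hmiss h3
    rw [mem_biUnion]
    refine ⟨x', mem_erase.2 ⟨hne, mem_powersetCard.2 ⟨subset_univ _, hx'k⟩⟩, ?_⟩
    rw [Fintype.mem_piFinset]
    intro i
    have h2 := hH i
    by_cases hij : i = j
    · simp only [Xs, if_pos hij] at h2
      simp only [Ys, if_pos hij]
      exact h2
    · simp only [Xs, if_neg hij] at h2
      simp only [Ys, if_neg hij]
      exact mem_inter.2 ⟨h2, hx' i⟩
  have h1 : ∏ i, (Xs i).card ≤ ∑ x' ∈ 𝒳, ∏ i, (Ys x' i).card := by
    rw [← Fintype.card_piFinset]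
    refine (card_le_card hcov).trans (card_biUnion_le.trans ?_)
    refine sum_le_sum fun x' _ => ?_
    rw [Fintype.card_piFinset]
  -- the good indices
  set u : ℝ := 1 / 2 ^ (k + 2) with hu
  have hu0 : 0 < u := by rw [hu]; positivity
  have hu1 : u ≤ 1 := by
    rw [hu, div_le_one (by positivity)]
    exact one_le_pow₀ (by norm_num)
  let Bad : Finset (Fin N) := univ.filter fun i => u * 2 ^ n < (((Hit x) \ A i).card : ℝ)
  have hBad : (Bad.card : ℝ) ≤ L * 2 ^ (k + 2) := by
    have h2 : (Bad.card : ℝ) * (u * 2 ^ n) ≤ L * 2 ^ n := by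
      rw [← nsmul_eq_mul, ← sum_const]
      refine (sum_le_sum fun i hi => (mem_filter.1 hi).2.le).trans (le_trans ?_ herr)
      exact sum_le_sum_of_subset_of_nonneg (subset_univ _) fun _ _ _ => Nat.cast_nonneg _
    have h3 : (Bad.card : ℝ) * u ≤ L := by
      have h4 : ((Bad.card : ℝ) * u) * 2 ^ n ≤ L * 2 ^ n := by linarith
      exact le_of_mul_le_mul_right h4 (by positivity)
    rw [hu, mul_one_div, div_le_iff₀ (by positivity)] at h3
    exact h3
  let Gd : Finset (Fin N) := (Badᶜ).erase j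
  have hGd : (2 : ℝ) ^ (k + 2) * (k * (Nat.log 2 n + 1)) ≤ Gd.card := by
    have h2 : Bad.card ≤ L * 2 ^ (k + 2) := by exact_mod_cast hBad
    have h3 : (Badᶜ).card = N - Bad.card := by rw [card_compl, Fintype.card_fin]
    have h4 : (Badᶜ).card - 1 ≤ Gd.card := pred_card_le_card_erase
    have h5 : 2 ^ (k + 2) * (k * (Nat.log 2 n + 1)) ≤ Gd.card := by
      have h6 : 2 ^ (k + 2) * (L + k * (Nat.log 2 n + 1)) =
          L * 2 ^ (k + 2) + 2 ^ (k + 2) * (k * (Nat.log 2 n + 1)) := by ring
      omega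
    exact_mod_cast h5
  have hgood : ∀ x' ∈ 𝒳, ∀ i ∈ Gd, ((Ys x' i).card : ℝ) ≤ (1 - u) * (Xs i).card := by
    intro x' hx' i hi
    have hij : i ≠ j := (mem_erase.1 hi).1
    have hib : i ∉ Bad := mem_compl.1 (mem_erase.1 hi).2
    have hie : (((Hit x) \ A i).card : ℝ) ≤ u * 2 ^ n := by
      by_contra h
      exact hib (mem_filter.2 ⟨mem_univ _, not_le.1 h⟩)
    have hx'k : x'.card = k := (mem_powersetCard.1 (mem_erase.1 hx').2).2
    have hne : x' ≠ x := (mem_erase.1 hx').1
    obtain ⟨v, hv, hv'⟩ : ∃ v ∈ x, v ∉ x' := by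
      by_contra hcon
      push Not at hcon
      have h2 : x ⊆ x' := hcon
      exact hne (eq_of_subset_of_card_le h2 (by rw [hx, hx'k])).symm
    have h2 := card_sep x x' hx'k v hv hv'
    have hX : Xs i = Hit x ∩ A i := if_neg hij
    have hY : Ys x' i = (Hit x ∩ A i) ∩ Hit x' := if_neg hij
    rw [hX, hY]
    -- the part of `Hit x ∩ A i` which is disjoint from `x'`
    have h3 : ((Hit x ∩ A i) ∩ Hit x').card + ((Hit x ∩ A i).filter fun S => Disjoint x' S).card
        = (Hit x ∩ A i).card := by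
      have h4 : (Hit x ∩ A i) ∩ Hit x' = (Hit x ∩ A i).filter fun S => ¬ Disjoint x' S := by
        ext S
        rw [mem_inter, mem_filter]
        refine and_congr_right fun _ => ?_
        rw [Hit, mem_filter]
        simp
      rw [h4, add_comm]
      exact card_filter_add_card_filter_not _
    have h5 : ((Hit x).filter fun S => Disjoint x' S).card ≤
        ((Hit x ∩ A i).filter fun S => Disjoint x' S).card + ((Hit x) \ A i).card := by
      refine (card_le_card ?_).trans (card_union_le _ _)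
      intro S hS
      rw [mem_filter] at hS
      rw [mem_union, mem_filter, mem_inter, mem_sdiff]
      by_cases hSA : S ∈ A i
      · exact Or.inl ⟨⟨hS.1, hSA⟩, hS.2⟩
      · exact Or.inr ⟨hS.1, hSA⟩
    have h6 : (2 : ℝ) ^ n ≤ ((Hit x).filter fun S => Disjoint x' S).card * 2 ^ (k + 1) := by
      exact_mod_cast h2
    have h7 : (((Hit x).filter fun S => Disjoint x' S).card : ℝ) ≤
        ((Hit x ∩ A i).filter fun S => Disjoint x' S).card + ((Hit x) \ A i).card := by
      exact_mod_cast h5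
    have h8 : (((Hit x ∩ A i) ∩ Hit x').card : ℝ) +
        ((Hit x ∩ A i).filter fun S => Disjoint x' S).card = (Hit x ∩ A i).card := by
      exact_mod_cast h3
    have h9 : ((Hit x ∩ A i).card : ℝ) ≤ 2 ^ n := by
      exact_mod_cast (card_le_card inter_subset_left).trans (card_hit x)
    have h10 : (2 : ℝ) ^ n * (2 * u) ≤ ((Hit x).filter fun S => Disjoint x' S).card := by
      have h11 : (2 : ℝ) * u = 1 / 2 ^ (k + 1) := by
        rw [hu, pow_succ (2 : ℝ) (k + 1)]
        field_simp
      rw [h11, mul_one_div, div_le_iff₀ (by positivity)]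
      exact h6
    nlinarith
  have hall : ∀ x' ∈ 𝒳, ∀ i, ((Ys x' i).card : ℝ) ≤ (Xs i).card := by
    intro x' _ i
    by_cases hij : i = j
    · simp only [Xs, Ys, if_pos hij]
      exact le_rfl
    · simp only [Xs, Ys, if_neg hij]
      exact_mod_cast card_le_card inter_subset_left
  have hXpos : ∀ i, (0 : ℝ) < (Xs i).card := by
    intro i
    by_cases hij : i = j
    · simp only [Xs, if_pos hij, card_singleton]
      norm_num
    · simp only [Xs, if_neg hij]
      exact_mod_cast hpos i
  have hprod : ∀ x' ∈ 𝒳, ∏ i, ((Ys x' i).card : ℝ) ≤ (1 - u) ^ Gd.card * ∏ i, ((Xs i).card : ℝ) := by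
    intro x' hx'
    have h2 : ∀ i, ((Ys x' i).card : ℝ) ≤ (if i ∈ Gd then 1 - u else 1) * (Xs i).card := by
      intro i
      by_cases hi : i ∈ Gd
      · rw [if_pos hi]; exact hgood x' hx' i hi
      · rw [if_neg hi, one_mul]; exact hall x' hx' i
    refine (prod_le_prod (fun _ _ => Nat.cast_nonneg _) fun i _ => h2 i).trans (le_of_eq ?_)
    rw [prod_mul_distrib]
    congr 1
    rw [prod_ite, prod_const, prod_const_one, mul_one]
    congr 1
    congr 1
    ext i
    simp
  have h2 : ∏ i, ((Xs i).card : ℝ) ≤ (𝒳.card : ℝ) * ((1 - u) ^ Gd.card * ∏ i, ((Xs i).card : ℝ)) := by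
    have h3 : ∏ i, ((Xs i).card : ℝ) ≤ ∑ x' ∈ 𝒳, ∏ i, ((Ys x' i).card : ℝ) := by exact_mod_cast h1
    refine h3.trans ((sum_le_sum hprod).trans (le_of_eq ?_))
    rw [sum_const, nsmul_eq_mul]
  have h3 : (1 : ℝ) ≤ (𝒳.card : ℝ) * (1 - u) ^ Gd.card := by
    have hP : 0 < ∏ i, ((Xs i).card : ℝ) := prod_pos fun i _ => hXpos i
    have h4 : 1 * ∏ i, ((Xs i).card : ℝ) ≤
        ((𝒳.card : ℝ) * (1 - u) ^ Gd.card) * ∏ i, ((Xs i).card : ℝ) := by
      rw [one_mul]; linarith
    exact le_of_mul_le_mul_right h4 hP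
  -- estimate
  set K := k * (Nat.log 2 n + 1) with hK
  have hK' : ((k : ℝ) * (Nat.log 2 n + 1)) = (K : ℝ) := by rw [hK]; push_cast; ring
  have h4 : (1 - u) ^ Gd.card ≤ Real.exp (-(K : ℝ)) := by
    have h5 : 1 - u ≤ Real.exp (-u) := by
      have := Real.add_one_le_exp (-u); linarith
    calc (1 - u) ^ Gd.card ≤ (Real.exp (-u)) ^ Gd.card := pow_le_pow_left₀ (by linarith) h5 _
      _ = Real.exp (Gd.card * -u) := by rw [← Real.exp_nat_mul]
      _ ≤ Real.exp (-(K : ℝ)) := by
        apply Real.exp_le_exp.2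
        have h6 : (K : ℝ) ≤ Gd.card * u := by
          rw [hK'] at hGd
          rw [hu, mul_one_div, le_div_iff₀ (by positivity)]
          linarith
        linarith
  have h5 : (𝒳.card : ℝ) < 2 ^ K + 1 := by
    have h6 : 𝒳.card ≤ n.choose k := by
      have h7 : 𝒳.card ≤ ((univ : Finset (Fin n)).powersetCard k).card :=
        card_le_card (erase_subset _ _)
      rwa [card_powersetCard, card_univ, Fintype.card_fin] at h7
    have h7 : n.choose k ≤ 2 ^ K := by
      refine (Nat.choose_le_pow n k).trans ?_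
      rw [hK, mul_comm k, pow_mul]
      exact Nat.pow_le_pow_left (Nat.lt_pow_succ_log_self (by norm_num) n).le k
    have h8 : (𝒳.card : ℝ) ≤ 2 ^ K := by exact_mod_cast h6.trans h7
    linarith
  rcases Nat.eq_zero_or_pos K with h0 | h0
  · -- `k = 0`: then `x` is the only set
    have hk0 : k = 0 := by
      rcases Nat.eq_zero_or_pos k with h | h
      · exact h
      · exfalso
        have : 0 < K := by rw [hK]; positivity
        omega
    have h6 : 𝒳 = ∅ := by
      rw [eq_empty_iff_forall_notMem]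
      intro y hy
      have h7 := (mem_powersetCard.1 (mem_erase.1 hy).2).2
      rw [hk0, card_eq_zero] at h7
      rw [hk0, card_eq_zero] at hx
      exact (mem_erase.1 hy).1 (h7.trans hx.symm)
    rw [h6, card_empty, Nat.cast_zero, zero_mul] at h3
    linarith
  · have h6 : (𝒳.card : ℝ) ≤ 2 ^ K := by
      have : 𝒳.card < 2 ^ K + 1 := by exact_mod_cast h5
      exact_mod_cast Nat.lt_succ_iff.1 this
    have h7 : (2 : ℝ) ^ K < Real.exp K := by
      have h8 : (2 : ℝ) < Real.exp 1 := by
        have := Real.exp_one_gt_d9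
        linarith
      calc (2 : ℝ) ^ K < (Real.exp 1) ^ K := pow_lt_pow_left₀ h8 (by norm_num) (by omega)
        _ = Real.exp K := by rw [← Real.exp_nat_mul, mul_one]
    have h8 : (𝒳.card : ℝ) * (1 - u) ^ Gd.card < 1 := by
      calc (𝒳.card : ℝ) * (1 - u) ^ Gd.card ≤ 2 ^ K * Real.exp (-(K : ℝ)) :=
            mul_le_mul h6 h4 (pow_nonneg (by linarith) _) (by positivity)
        _ < Real.exp K * Real.exp (-(K : ℝ)) := mul_lt_mul_of_pos_right h7 (Real.exp_pos _)
        _ = 1 := by rw [← Real.exp_add, add_neg_cancel, Real.exp_zero]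
    linarith

end Pool.Agent.Helper61.MW
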