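import Pool.Agent.Helper61.MW.Core

/-!
# Clause-wise reductions: the quantitative theorem
-/

set_option autoImplicit false

open scoped Classical
open Finset

namespace Pool.Agent.Helper61.MW

theorem mem_hit {n : ℕ} (x S : Finset (Fin n)) : S ∈ Hit x ↔ ¬ Disjoint x S := by
  rw [Hit, mem_filter]
  simp

theorem core {n N k q L La : ℕ} {Z G : Type} [Fintype Z] (𝒢 : Finset G) (bad : G → Z → Prop)
    (ψ : Fin N → Finset (Fin n) → Finset G) (hk : 1 ≤ k) (hZ : Fintype.card Z ≤ 2 ^ L)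
    (h𝒢 : 𝒢.card ≤ 2 ^ La) (hψ : ∀ j S, ψ j S ⊆ 𝒢) (hq : ∀ j S, (ψ j S).card ≤ q)
    (hN : 2 ^ (k + 4) * ((q + 1) * (L + k * (Nat.log 2 n + 1) + 1)) ≤ N)
    (hiff : ∀ H : Fin N → Finset (Fin n), (∃ x : Finset (Fin n), x.card = k ∧ ∀ j, H j ∈ Hit x) ↔
      ∃ z, ∀ j, ∀ g ∈ ψ j (H j), ¬ bad g z) :
    n.choose k ≤ 2 ^ (k + 4) * q * (k * (4 * (La + k + 2))) ^ k := by
  have hNpos : 0 < N := lt_of_lt_of_le (by positivity) hN
  have hN' : 2 ^ (k + 2) * (L + k * (Nat.log 2 n + 1)) + 2 ≤ N := by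
    have h0 : 1 ≤ 2 ^ (k + 2) := Nat.one_le_two_pow
    have h1 : 2 ^ (k + 4) = 4 * 2 ^ (k + 2) := by ring
    have h2 : L + k * (Nat.log 2 n + 1) + 1 ≤ (q + 1) * (L + k * (Nat.log 2 n + 1) + 1) :=
      Nat.le_mul_of_pos_left _ (Nat.succ_pos q)
    have h3 : 4 * 2 ^ (k + 2) * (L + k * (Nat.log 2 n + 1) + 1) ≤ N := by
      rw [← h1]
      exact (Nat.mul_le_mul_left _ h2).trans hN
    nlinarith
  -- the popular witnesses
  have hpop : ∀ x : Finset (Fin n), ∃ b : G → Prop, x.card = k →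
      (∑ j, (((Hit x) \ (univ.filter fun S => ∀ g ∈ ψ j S, ¬ b g)).card : ℝ) ≤ L * 2 ^ n) ∧
      ∀ j S, (∀ g ∈ ψ j S, ¬ b g) → S ∈ Hit x := by
    intro x
    by_cases hx : x.card = k
    swap
    · exact ⟨fun _ => True, fun h => absurd h hx⟩
    have hne : (Hit x).Nonempty := by
      refine ⟨univ, (mem_hit _ _).2 fun h => ?_⟩
      obtain ⟨v, hv⟩ := card_pos.1 (by omega : 0 < x.card)
      exact disjoint_left.1 h hv (mem_univ v)
    let A : Z → Fin N → Finset (Finset (Fin n)) := fun z j =>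
      univ.filter fun S => ∀ g ∈ ψ j S, ¬ bad g z
    obtain ⟨z, hz⟩ := popular (Hit x) hne A (by
      intro H hH
      obtain ⟨z, hz⟩ := (hiff H).1 ⟨x, hx, hH⟩
      exact ⟨z, fun j => mem_filter.2 ⟨mem_univ _, hz j⟩⟩)
    have hz' : (Hit x).card ^ N ≤ 2 ^ L * ∏ j, (Hit x ∩ A z j).card :=
      hz.trans (Nat.mul_le_mul_right _ hZ)
    have hprod : 0 < ∏ j, (Hit x ∩ A z j).card := by
      by_contra h
      have h0 : ∏ j, (Hit x ∩ A z j).card = 0 := by omega
      rw [h0, mul_zero] at hz'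
      have := pow_pos (card_pos.2 hne) N
      omega
    have hpos : ∀ i, 0 < (Hit x ∩ A z i).card := by
      intro i
      by_contra h
      have h0 : (Hit x ∩ A z i).card = 0 := by omega
      rw [prod_eq_zero (mem_univ i) h0] at hprod
      exact lt_irrefl _ hprod
    have herr : ∑ i, (((Hit x) \ A z i).card : ℝ) ≤ L * 2 ^ n := by
      refine (err_sum (Hit x) hne (A z) hz').trans ?_
      refine mul_le_mul_of_nonneg_left ?_ (Nat.cast_nonneg _)
      exact_mod_cast card_hit x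
    refine ⟨fun g => bad g z, fun _ => ⟨herr, ?_⟩⟩
    intro j S hS
    refine acc_hit x hx (A z) hpos herr hN' ?_ j S (mem_filter.2 ⟨mem_univ _, hS⟩)
    intro H hH
    exact (hiff H).2 ⟨z, fun i => (mem_filter.1 (hH i)).2⟩
  choose b hb using hpop
  set 𝒳 : Finset (Finset (Fin n)) := (univ : Finset (Fin n)).powersetCard k with h𝒳
  have h𝒳k : ∀ x ∈ 𝒳, x.card = k := fun x hx => (mem_powersetCard.1 hx).2
  have h𝒳c : 𝒳.card = n.choose k := by
    rw [h𝒳, card_powersetCard, card_univ, Fintype.card_fin]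
  -- choice of the index
  let E : Fin N → ℝ := fun j => ∑ x ∈ 𝒳,
    (((Hit x) \ (univ.filter fun S => ∀ g ∈ ψ j S, ¬ b x g)).card : ℝ)
  obtain ⟨j, hj⟩ : ∃ j, N * E j ≤ L * 2 ^ n * 𝒳.card := by
    by_contra hcon
    push Not at hcon
    have h1 : ∑ _j : Fin N, L * 2 ^ n * (𝒳.card : ℝ) < ∑ j, N * E j :=
      sum_lt_sum_of_nonempty ⟨⟨0, hNpos⟩, mem_univ _⟩ fun j _ => hcon j
    rw [sum_const, card_univ, Fintype.card_fin, nsmul_eq_mul, ← mul_sum] at h1
    have h2 : ∑ j, E j ≤ L * 2 ^ n * 𝒳.card := by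
      show ∑ j, ∑ x ∈ 𝒳, _ ≤ _
      rw [sum_comm]
      refine (sum_le_sum fun x hx => (hb x (h𝒳k x hx)).1).trans (le_of_eq ?_)
      rw [sum_const, nsmul_eq_mul]
      ring
    have h3 : (0 : ℝ) < N := by exact_mod_cast hNpos
    have h4 := mul_le_mul_of_nonneg_left h2 h3.le
    linarith
  set m := 4 * (La + k + 2) with hm
  set b0 := 8 * (k * m) ^ k with hb0
  have hb0pos : 0 < b0 := by rw [hb0, hm]; positivity
  let B : G → Finset (Finset (Fin n)) := fun g => 𝒳.filter fun x => b x g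
  let miss : Finset (Fin n) → ℕ := fun S => (𝒳.filter fun x => Disjoint x S).card
  let err : Finset (Fin n) → ℕ := fun S =>
    (𝒳.filter fun x => ¬ Disjoint x S ∧ ∃ g ∈ ψ j S, b x g).card
  let At : Finset (Finset (Fin n)) := univ.filter fun S => ∃ g ∈ 𝒢, b0 ≤ (B g).card ∧
    3 * (B g).card ≤ 4 * ((B g).filter fun x => Disjoint x S).card
  -- few atypical sets
  have hAt : (At.card : ℝ) ≤ 2 ^ n * (1 / 2 ^ (k + 2)) := by
    let Bd : G → Finset (Finset (Fin n)) := fun g => univ.filter fun S =>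
      3 * (B g).card ≤ 4 * ((B g).filter fun x => Disjoint x S).card
    have h1 : At ⊆ (𝒢.filter fun g => b0 ≤ (B g).card).biUnion Bd := by
      intro S hS
      obtain ⟨g, hg, h2, h3⟩ := (mem_filter.1 hS).2
      exact mem_biUnion.2 ⟨g, mem_filter.2 ⟨hg, h2⟩, mem_filter.2 ⟨mem_univ _, h3⟩⟩
    have h2 : (At.card : ℝ) ≤ ∑ g ∈ 𝒢.filter (fun g => b0 ≤ (B g).card), ((Bd g).card : ℝ) := by
      exact_mod_cast (card_le_card h1).trans card_biUnion_le
    have h3 : ∑ g ∈ 𝒢.filter (fun g => b0 ≤ (B g).card), ((Bd g).card : ℝ) ≤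
        2 ^ La * (2 ^ n * (5 / 6) ^ m) := by
      have h4 : ∀ g ∈ 𝒢.filter (fun g => b0 ≤ (B g).card), ((Bd g).card : ℝ) ≤
          2 ^ n * (5 / 6) ^ m := by
        intro g hg
        have h5 := (mem_filter.1 hg).2
        exact typical (B g) (fun x hx => h𝒳k x (mem_filter.1 hx).1) h5
          (lt_of_lt_of_le hb0pos h5)
      refine (sum_le_sum h4).trans ?_
      rw [sum_const, nsmul_eq_mul]
      refine mul_le_mul_of_nonneg_right ?_ (by positivity)
      exact_mod_cast (card_filter_le _ _).trans h𝒢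
    have h4 : (5 / 6 : ℝ) ^ m ≤ 1 / 2 ^ (La + (k + 2)) := by
      rw [hm, pow_mul, show La + k + 2 = La + (k + 2) by ring, one_div, ← inv_pow]
      exact pow_le_pow_left₀ (by norm_num) (by norm_num) _
    refine (h2.trans h3).trans ?_
    calc (2 : ℝ) ^ La * (2 ^ n * (5 / 6) ^ m) ≤ 2 ^ La * (2 ^ n * (1 / 2 ^ (La + (k + 2)))) := by
          refine mul_le_mul_of_nonneg_left ?_ (by positivity)
          exact mul_le_mul_of_nonneg_left h4 (by positivity)
      _ = 2 ^ n * (1 / 2 ^ (k + 2)) := by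
          rw [pow_add]
          field_simp
  -- typical sets
  have htyp : ∀ S, S ∉ At → miss S ≤ q * (b0 + 3 * err S) := by
    intro S hS
    have h1 : (𝒳.filter fun x => Disjoint x S) ⊆
        (ψ j S).biUnion fun g => (B g).filter fun x => Disjoint x S := by
      intro x hx
      rw [mem_filter] at hx
      have h2 : ∃ g ∈ ψ j S, b x g := by
        by_contra hcon
        push Not at hcon
        exact (mem_hit _ _).1 ((hb x (h𝒳k x hx.1)).2 j S hcon) hx.2
      obtain ⟨g, hg, hbg⟩ := h2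
      exact mem_biUnion.2 ⟨g, hg, mem_filter.2 ⟨mem_filter.2 ⟨hx.1, hbg⟩, hx.2⟩⟩
    have h2 : miss S ≤ ∑ g ∈ ψ j S, ((B g).filter fun x => Disjoint x S).card :=
      (card_le_card h1).trans card_biUnion_le
    have h3 : ∀ g ∈ ψ j S, ((B g).filter fun x => Disjoint x S).card ≤ b0 + 3 * err S := by
      intro g hg
      have h4 : ((B g).filter fun x => Disjoint x S).card +
          ((B g).filter fun x => ¬ Disjoint x S).card = (B g).card :=
        card_filter_add_card_filter_not _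
      have h5 : ((B g).filter fun x => ¬ Disjoint x S).card ≤ err S := by
        refine card_le_card fun x hx => ?_
        rw [mem_filter] at hx
        have h6 := mem_filter.1 hx.1
        exact mem_filter.2 ⟨h6.1, hx.2, g, hg, h6.2⟩
      rcases Nat.lt_or_ge (B g).card b0 with h6 | h6
      · omega
      · have h7 : ¬ 3 * (B g).card ≤ 4 * ((B g).filter fun x => Disjoint x S).card := by
          intro h8
          exact hS (mem_filter.2 ⟨mem_univ _, g, hψ j S hg, h6, h8⟩)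
        omega
    refine h2.trans ((sum_le_sum h3).trans ?_)
    rw [sum_const, smul_eq_mul]
    exact Nat.mul_le_mul_right _ (hq j S)
  have hmiss : ∀ S : Finset (Fin n), (miss S : ℝ) ≤ q * (b0 + 3 * (err S : ℝ)) +
      (if S ∈ At then (𝒳.card : ℝ) else 0) := by
    intro S
    by_cases hS : S ∈ At
    · rw [if_pos hS]
      have h1 : (miss S : ℝ) ≤ 𝒳.card := by exact_mod_cast card_filter_le _ _
      have h2 : (0 : ℝ) ≤ q * (b0 + 3 * (err S : ℝ)) := by positivity
      linarith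
    · rw [if_neg hS, add_zero]
      exact_mod_cast htyp S hS
  have hsum := sum_le_sum fun (S : Finset (Fin n)) (_ : S ∈ univ) => hmiss S
  have hmisssum : ∑ S : Finset (Fin n), (miss S : ℝ) * 2 ^ k = 𝒳.card * 2 ^ n := by
    have h1 : ∀ S : Finset (Fin n), (miss S : ℝ) = ∑ x ∈ 𝒳, if Disjoint x S then (1 : ℝ) else 0 := by
      intro S
      rw [← sum_filter, sum_const, nsmul_eq_mul, mul_one]
    rw [← sum_mul, sum_congr rfl fun S _ => h1 S, sum_comm, sum_mul]
    have h2 : ∀ x ∈ 𝒳, (∑ S : Finset (Fin n), if Disjoint x S then (1 : ℝ) else 0) * 2 ^ k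
        = 2 ^ n := by
      intro x hx
      rw [← sum_filter, sum_const, nsmul_eq_mul, mul_one]
      have := card_disj x
      rw [h𝒳k x hx] at this
      exact_mod_cast this
    rw [sum_congr rfl h2, sum_const, nsmul_eq_mul]
  have herrsum : ∑ S : Finset (Fin n), (err S : ℝ) = E j := by
    have h1 : ∀ S : Finset (Fin n), (err S : ℝ) =
        ∑ x ∈ 𝒳, if (¬ Disjoint x S ∧ ∃ g ∈ ψ j S, b x g) then (1 : ℝ) else 0 := by
      intro S
      rw [← sum_filter, sum_const, nsmul_eq_mul, mul_one]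
    rw [sum_congr rfl fun S _ => h1 S, sum_comm]
    refine sum_congr rfl fun x _ => ?_
    rw [← sum_filter, sum_const, nsmul_eq_mul, mul_one]
    congr 1
    congr 1
    ext S
    rw [mem_filter, mem_sdiff, mem_hit, mem_filter]
    simp
  rw [sum_add_distrib, ← mul_sum, sum_add_distrib, ← mul_sum, herrsum, sum_const, nsmul_eq_mul,
    ← sum_filter, sum_const, nsmul_eq_mul] at hsum
  have hcu : ((univ : Finset (Finset (Fin n))).card : ℝ) = 2 ^ n := by
    rw [card_univ, Fintype.card_finset, Fintype.card_fin]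
    push_cast
    rfl
  have hAf : (univ.filter fun S => S ∈ At) = At := by
    ext S; simp
  rw [hcu, hAf] at hsum
  -- conclusion
  have hNr : (0 : ℝ) < N := by exact_mod_cast hNpos
  have hNq : (2 : ℝ) ^ (k + 2) * (3 * q * L) ≤ N := by
    have h1 : 2 ^ (k + 2) * (3 * q * L) ≤ N := by
      refine le_trans ?_ hN
      have h3 : q * L ≤ (q + 1) * (L + k * (Nat.log 2 n + 1) + 1) :=
        Nat.mul_le_mul (by omega) (by omega)
      calc 2 ^ (k + 2) * (3 * q * L) = 2 ^ (k + 2) * (3 * (q * L)) := by ring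
        _ ≤ 2 ^ (k + 2) * (4 * ((q + 1) * (L + k * (Nat.log 2 n + 1) + 1))) :=
            Nat.mul_le_mul_left _ (by omega)
        _ = 2 ^ (k + 4) * ((q + 1) * (L + k * (Nat.log 2 n + 1) + 1)) := by ring
    exact_mod_cast h1
  set X : ℝ := (𝒳.card : ℝ) with hX
  have hX0 : 0 ≤ X := Nat.cast_nonneg _
  have h2n : (0 : ℝ) < 2 ^ n := by positivity
  have h2k : (0 : ℝ) < 2 ^ k := by positivity
  have hm1 : (∑ S : Finset (Fin n), (miss S : ℝ)) = X * 2 ^ n / 2 ^ k := by
    rw [← sum_mul] at hmisssum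
    rw [eq_div_iff h2k.ne', hmisssum]
  rw [hm1] at hsum
  have hE : 3 * q * E j ≤ 2 ^ n * X / 2 ^ (k + 2) := by
    rw [le_div_iff₀ (by positivity)]
    have h1 : (3 * q * E j * 2 ^ (k + 2)) * N ≤ (2 ^ n * X) * N := by
      have h2 : (3 * q * E j * 2 ^ (k + 2)) * N = (3 * q * 2 ^ (k + 2)) * (N * E j) := by ring
      have h3 : (3 * (q : ℝ) * 2 ^ (k + 2)) * (N * E j) ≤
          (3 * q * 2 ^ (k + 2)) * (L * 2 ^ n * X) :=
        mul_le_mul_of_nonneg_left hj (by positivity)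
      have h4 : (3 * (q : ℝ) * 2 ^ (k + 2)) * (L * 2 ^ n * X) =
          (2 ^ (k + 2) * (3 * q * L)) * (2 ^ n * X) := by ring
      have h5 := mul_le_mul_of_nonneg_right hNq (by positivity : 0 ≤ 2 ^ n * X)
      linarith
    exact le_of_mul_le_mul_right h1 hNr
  have hA2 : (At.card : ℝ) * X ≤ 2 ^ n * (1 / 2 ^ (k + 2)) * X :=
    mul_le_mul_of_nonneg_right hAt hX0
  have hfin : X * (2 ^ n / 2 ^ k) ≤ q * b0 * 2 ^ n + X * (2 ^ n / 2 ^ k) / 2 := by
    have e1 : X * 2 ^ n / 2 ^ k = X * (2 ^ n / 2 ^ k) := by ring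
    have e2 : 2 ^ n * X / 2 ^ (k + 2) = X * (2 ^ n / 2 ^ k) / 4 := by
      rw [pow_add]; field_simp; ring
    have e3 : 2 ^ n * (1 / 2 ^ (k + 2)) * X = X * (2 ^ n / 2 ^ k) / 4 := by
      rw [pow_add]; field_simp; ring
    have e4 : (q : ℝ) * (2 ^ n * b0 + 3 * E j) = q * b0 * 2 ^ n + 3 * q * E j := by ring
    rw [e1, e4] at hsum
    rw [e2] at hE
    rw [e3] at hA2
    linarith
  have hfin2 : X ≤ 2 ^ (k + 1) * (q * b0) := by
    have h1 : X * (2 ^ n / 2 ^ k) ≤ 2 * (q * b0) * 2 ^ n := by linarith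
    have h2 : X * (2 ^ n / 2 ^ k) = (X / 2 ^ k) * 2 ^ n := by ring
    rw [h2] at h1
    have h3 := le_of_mul_le_mul_right h1 h2n
    rw [div_le_iff₀ h2k] at h3
    calc X ≤ 2 * (q * b0) * 2 ^ k := h3
      _ = 2 ^ (k + 1) * (q * b0) := by ring
  have hfin3 : n.choose k ≤ 2 ^ (k + 1) * (q * b0) := by
    rw [← h𝒳c]
    have h1 := hfin2
    rw [hX] at h1
    exact_mod_cast h1
  refine hfin3.trans (le_of_eq ?_)
  rw [hb0]
  ring

end Pool.Agent.Helper61.MW
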