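import Mathlib

/-!
# Clause-wise reductions: the popular witness and typical sets
-/

set_option autoImplicit false

open scoped Classical
open Finset

namespace Pool.Agent.Helper61.MW

/-- A popular witness. -/
theorem popular {α Z : Type} [DecidableEq α] [Fintype Z] {N : ℕ} (X : Finset α) (hX : X.Nonempty)
    (A : Z → Fin N → Finset α) (hcov : ∀ H : Fin N → α, (∀ j, H j ∈ X) → ∃ z, ∀ j, H j ∈ A z j) :
    ∃ z, X.card ^ N ≤ Fintype.card Z * ∏ j, (X ∩ A z j).card := by
  obtain ⟨a, ha⟩ := hX
  obtain ⟨z₀, -⟩ := hcov (fun _ => a) (fun _ => ha)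
  by_contra hcon
  push Not at hcon
  have h1 : (Fintype.piFinset fun _ : Fin N => X).card = X.card ^ N := by
    rw [Fintype.card_piFinset, prod_const, card_univ, Fintype.card_fin]
  have h2 : (Fintype.piFinset fun _ : Fin N => X) ⊆
      (univ : Finset Z).biUnion fun z => Fintype.piFinset fun j => X ∩ A z j := by
    intro H hH
    rw [Fintype.mem_piFinset] at hH
    obtain ⟨z, hz⟩ := hcov H hH
    rw [mem_biUnion]
    exact ⟨z, mem_univ z, Fintype.mem_piFinset.2 fun j => mem_inter.2 ⟨hH j, hz j⟩⟩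
  have h3 : X.card ^ N ≤ ∑ z : Z, ∏ j, (X ∩ A z j).card := by
    rw [← h1]
    refine (card_le_card h2).trans (card_biUnion_le.trans ?_)
    refine sum_le_sum fun z _ => ?_
    rw [Fintype.card_piFinset]
  have h4 : ∑ z : Z, Fintype.card Z * ∏ j, (X ∩ A z j).card < ∑ _z : Z, X.card ^ N :=
    sum_lt_sum_of_nonempty ⟨z₀, mem_univ _⟩ fun z _ => hcon z
  rw [← mul_sum, sum_const, card_univ, smul_eq_mul] at h4
  exact absurd h3 (not_le.2 (lt_of_mul_lt_mul_left h4 (Nat.zero_le _)))

/-- The errors of a popular witness. -/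
theorem err_sum {α : Type} [DecidableEq α] {N L : ℕ} (X : Finset α) (hX : X.Nonempty) (A : Fin N → Finset α)
    (h : X.card ^ N ≤ 2 ^ L * ∏ j, (X ∩ A j).card) :
    ∑ j, ((X \ A j).card : ℝ) ≤ L * X.card := by
  have hc : (0 : ℝ) < X.card := by exact_mod_cast card_pos.2 hX
  let a : Fin N → ℝ := fun j => ((X \ A j).card : ℝ) / X.card
  have ha : ∀ j, ((X ∩ A j).card : ℝ) = X.card * (1 - a j) := by
    intro j
    have h1 : (X \ A j).card + (X ∩ A j).card = X.card := card_sdiff_add_card_inter X (A j)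
    have h2 : ((X \ A j).card : ℝ) + (X ∩ A j).card = X.card := by exact_mod_cast h1
    have h3 : (X.card : ℝ) * a j = (X \ A j).card := by
      show (X.card : ℝ) * (((X \ A j).card : ℝ) / X.card) = _
      field_simp
    rw [mul_sub, mul_one, h3]
    linarith
  have h1 : (X.card : ℝ) ^ N ≤ 2 ^ L * ∏ j, ((X ∩ A j).card : ℝ) := by exact_mod_cast h
  have h2 : ∏ j, ((X ∩ A j).card : ℝ) ≤ (X.card : ℝ) ^ N * Real.exp (-∑ j, a j) := by
    have h3 : ∏ j, ((X ∩ A j).card : ℝ) ≤ ∏ j, ((X.card : ℝ) * Real.exp (-a j)) := by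
      refine prod_le_prod (fun j _ => Nat.cast_nonneg _) fun j _ => ?_
      rw [ha j]
      refine mul_le_mul_of_nonneg_left ?_ hc.le
      have := Real.add_one_le_exp (-a j)
      linarith
    refine h3.trans (le_of_eq ?_)
    rw [prod_mul_distrib, prod_const, card_univ, Fintype.card_fin, ← Real.exp_sum,
      sum_neg_distrib]
  have h3 : (1 : ℝ) ≤ 2 ^ L * Real.exp (-∑ j, a j) := by
    have h4 : (X.card : ℝ) ^ N * 1 ≤ (X.card : ℝ) ^ N * (2 ^ L * Real.exp (-∑ j, a j)) := by
      rw [mul_one]
      calc (X.card : ℝ) ^ N ≤ 2 ^ L * ∏ j, ((X ∩ A j).card : ℝ) := h1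
        _ ≤ 2 ^ L * ((X.card : ℝ) ^ N * Real.exp (-∑ j, a j)) :=
            mul_le_mul_of_nonneg_left h2 (by positivity)
        _ = _ := by ring
    exact le_of_mul_le_mul_left h4 (by positivity)
  have h4 : ∑ j, a j ≤ L := by
    have h5 : Real.exp (∑ j, a j) ≤ 2 ^ L := by
      rw [Real.exp_neg] at h3
      have h6 : 0 < Real.exp (∑ j, a j) := Real.exp_pos _
      have h7 : (1 : ℝ) ≤ 2 ^ L / Real.exp (∑ j, a j) := by rwa [div_eq_mul_inv]
      rwa [one_le_div h6] at h7
    have h8 : (2 : ℝ) ^ L ≤ Real.exp L := by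
      have h9 : (2 : ℝ) ≤ Real.exp 1 := by
        have := Real.add_one_le_exp (1 : ℝ)
        linarith
      calc (2 : ℝ) ^ L ≤ (Real.exp 1) ^ L := pow_le_pow_left₀ (by norm_num) h9 L
        _ = Real.exp L := by rw [← Real.exp_nat_mul, mul_one]
    exact Real.exp_le_exp.1 (h5.trans h8)
  have h5 : ∑ j, ((X \ A j).card : ℝ) = (∑ j, a j) * X.card := by
    rw [sum_mul]
    refine sum_congr rfl fun j _ => ?_
    show _ = ((X \ A j).card : ℝ) / X.card * X.card
    field_simp
  rw [h5]
  exact mul_le_mul_of_nonneg_right h4 hc.le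

/-- number of sets disjoint from `W` -/
theorem card_disj {n : ℕ} (W : Finset (Fin n)) :
    ((univ : Finset (Finset (Fin n))).filter fun S => Disjoint W S).card * 2 ^ W.card = 2 ^ n := by
  have h1 : ((univ : Finset (Finset (Fin n))).filter fun S => Disjoint W S) = Wᶜ.powerset := by
    ext S
    rw [mem_filter, mem_powerset]
    constructor
    · rintro ⟨-, h⟩ a ha
      rw [mem_compl]
      exact fun hW => (disjoint_left.1 h hW) ha
    · intro h
      refine ⟨mem_univ _, disjoint_left.2 fun a ha hS => ?_⟩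
      exact (mem_compl.1 (h hS)) ha
  rw [h1, card_powerset, card_compl, Fintype.card_fin, ← pow_add]
  congr 1
  have := card_le_univ W
  rw [Fintype.card_fin] at this
  omega

/-- the moments -/
noncomputable def T {n : ℕ} (B : Finset (Finset (Fin n))) (i : ℕ) (W : Finset (Fin n)) : ℝ :=
  ∑ S ∈ (univ : Finset (Finset (Fin n))).filter fun S => Disjoint W S,
    ((B.filter fun x => Disjoint x S).card : ℝ) ^ i

theorem T_succ {n : ℕ} (B : Finset (Finset (Fin n))) (i : ℕ) (W : Finset (Fin n)) :
    T B (i + 1) W = ∑ x ∈ B, T B i (W ∪ x) := by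
  unfold T
  have h1 : ∀ S : Finset (Fin n), ((B.filter fun x => Disjoint x S).card : ℝ) ^ (i + 1) =
      ∑ x ∈ B, if Disjoint x S then ((B.filter fun x => Disjoint x S).card : ℝ) ^ i else 0 := by
    intro S
    rw [← sum_filter, sum_const, nsmul_eq_mul, pow_succ, mul_comm]
  rw [sum_congr rfl fun S _ => h1 S, sum_comm]
  refine sum_congr rfl fun x _ => ?_
  rw [← sum_filter, filter_filter]
  refine sum_congr ?_ fun _ _ => rfl
  ext S
  simp only [mem_filter, mem_univ, true_and, disjoint_union_left]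

theorem T_le {n k m : ℕ} (B : Finset (Finset (Fin n))) (hB : ∀ x ∈ B, x.card = k)
    (hb : 8 * (k * m) ^ k ≤ B.card) : ∀ (i : ℕ) (W : Finset (Fin n)), i ≤ m →
    W.card ≤ k * (m - i) → T B i W * 2 ^ W.card ≤ 2 ^ n * (5 / 8 * (B.card : ℝ)) ^ i := by
  intro i
  induction i with
  | zero =>
    intro W _ _
    have h1 : T B 0 W = (((univ : Finset (Finset (Fin n))).filter fun S => Disjoint W S).card : ℝ) := by
      unfold T
      simp
    rw [h1, pow_zero, mul_one]
    have := card_disj W
    exact le_of_eq (by exact_mod_cast this)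
  | succ i ih =>
    intro W hi hW
    rw [T_succ, sum_mul]
    have h1 : ∀ x ∈ B, T B i (W ∪ x) * 2 ^ W.card ≤
        2 ^ n * (5 / 8 * (B.card : ℝ)) ^ i * (if x ⊆ W then 1 else 1 / 2) := by
      intro x hx
      have hc : (W ∪ x).card ≤ k * (m - i) := by
        have h2 := card_union_le W x
        rw [hB x hx] at h2
        have h3 : k * (m - i) = k * (m - (i + 1)) + k := by
          rw [show m - i = m - (i + 1) + 1 by omega]; ring
        omega
      have h2 := ih (W ∪ x) (by omega) hc
      by_cases hxW : x ⊆ W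
      · rw [if_pos hxW, mul_one]
        rw [union_eq_left.2 hxW] at h2 ⊢
        exact h2
      · rw [if_neg hxW]
        have h3 : W.card + 1 ≤ (W ∪ x).card := by
          refine card_lt_card ⟨subset_union_left, fun h => hxW ?_⟩
          exact subset_union_right.trans h
        have h4 : T B i (W ∪ x) * 2 ^ W.card * 2 ≤ T B i (W ∪ x) * 2 ^ (W ∪ x).card := by
          have h5 : (2 : ℝ) ^ (W.card + 1) ≤ 2 ^ (W ∪ x).card :=
            pow_le_pow_right₀ (by norm_num) h3
          have h6 : 0 ≤ T B i (W ∪ x) := by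
            unfold T; positivity
          calc T B i (W ∪ x) * 2 ^ W.card * 2 = T B i (W ∪ x) * 2 ^ (W.card + 1) := by ring
            _ ≤ _ := mul_le_mul_of_nonneg_left h5 h6
        linarith
    refine (sum_le_sum h1).trans ?_
    rw [← mul_sum, pow_succ, ← mul_assoc]
    refine mul_le_mul_of_nonneg_left ?_ (by positivity)
    rw [← sum_filter_add_sum_filter_not B (fun x => x ⊆ W)]
    have h5 : ∑ x ∈ B.filter (fun x => x ⊆ W), (if x ⊆ W then (1 : ℝ) else 1 / 2) =
        ((B.filter fun x => x ⊆ W).card : ℝ) := by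
      rw [sum_congr rfl fun x hx => if_pos (mem_filter.1 hx).2, sum_const, nsmul_eq_mul, mul_one]
    have h6 : ∑ x ∈ B.filter (fun x => ¬ x ⊆ W), (if x ⊆ W then (1 : ℝ) else 1 / 2) ≤
        (B.card : ℝ) * (1 / 2) := by
      rw [sum_congr rfl fun x hx => if_neg (mem_filter.1 hx).2, sum_const, nsmul_eq_mul]
      refine mul_le_mul_of_nonneg_right ?_ (by norm_num)
      exact_mod_cast card_filter_le _ _
    have h7 : ((B.filter fun x => x ⊆ W).card : ℝ) * 8 ≤ B.card := by
      have h8 : (B.filter fun x => x ⊆ W) ⊆ W.powersetCard k := by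
        intro x hx
        rw [mem_filter] at hx
        exact mem_powersetCard.2 ⟨hx.2, hB x hx.1⟩
      have h9 := card_le_card h8
      rw [card_powersetCard] at h9
      have h10 : W.card.choose k ≤ (k * m) ^ k := by
        refine (Nat.choose_le_pow _ _).trans (Nat.pow_le_pow_left ?_ k)
        exact hW.trans (Nat.mul_le_mul_left _ (Nat.sub_le _ _))
      have h11 : (B.filter fun x => x ⊆ W).card * 8 ≤ B.card := by
        calc (B.filter fun x => x ⊆ W).card * 8 ≤ (k * m) ^ k * 8 :=
              Nat.mul_le_mul_right _ (h9.trans h10)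
          _ ≤ B.card := by rw [mul_comm]; exact hb
      exact_mod_cast h11
    rw [h5]
    linarith

/-- large families are typical for all but few sets -/
theorem typical {n k m : ℕ} (B : Finset (Finset (Fin n))) (hB : ∀ x ∈ B, x.card = k)
    (hb : 8 * (k * m) ^ k ≤ B.card) (hb0 : 0 < B.card) :
    (((univ : Finset (Finset (Fin n))).filter fun S =>
      3 * B.card ≤ 4 * (B.filter fun x => Disjoint x S).card).card : ℝ) ≤ 2 ^ n * (5 / 6) ^ m := by
  set Bad := (univ : Finset (Finset (Fin n))).filter fun S =>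
      3 * B.card ≤ 4 * (B.filter fun x => Disjoint x S).card with hBad
  have h1 := T_le B hB hb m ∅ le_rfl (by simp)
  rw [card_empty, pow_zero, mul_one] at h1
  have hc : (0 : ℝ) < B.card := by exact_mod_cast hb0
  have h2 : (Bad.card : ℝ) * (3 / 4 * (B.card : ℝ)) ^ m ≤ T B m ∅ := by
    unfold T
    have h3 : ((univ : Finset (Finset (Fin n))).filter fun S => Disjoint (∅ : Finset (Fin n)) S)
        = univ := by
      rw [filter_true_of_mem]
      intro S _
      exact disjoint_empty_left S
    rw [h3, ← nsmul_eq_mul, ← sum_const]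
    refine (sum_le_sum (g := fun S => ((B.filter fun x => Disjoint x S).card : ℝ) ^ m)
      fun S hS => ?_).trans (sum_le_sum_of_subset_of_nonneg (subset_univ _)
        fun _ _ _ => by positivity)
    refine pow_le_pow_left₀ (by positivity) ?_ m
    have h4 : 3 * B.card ≤ 4 * (B.filter fun x => Disjoint x S).card := (mem_filter.1 hS).2
    have h5 : (3 : ℝ) * B.card ≤ 4 * (B.filter fun x => Disjoint x S).card := by exact_mod_cast h4
    linarith
  have h3 : (Bad.card : ℝ) * (3 / 4 * (B.card : ℝ)) ^ m ≤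
      (2 ^ n * (5 / 6) ^ m) * (3 / 4 * (B.card : ℝ)) ^ m := by
    refine (h2.trans h1).trans (le_of_eq ?_)
    rw [mul_assoc, ← mul_pow]
    congr 2
    ring
  exact le_of_mul_le_mul_right h3 (by positivity)

end Pool.Agent.Helper61.MW
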